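import Pool.Agent.Q224.UC.Bip
import Pool.Agent.Q224.UC.Intv3
import Pool.Agent.Q224.UC.Tree2

/-!
# Up-color domination weight: trees, bipartite graphs, interval graphs (all parts of Q1)

(a) On trees the up-color domination weight is computable in polynomial time.
(b) For bipartite graphs the decision problem UCW is NP-complete.
(c) For interval graphs the decision problem UCW is NP-complete.
-/

set_option autoImplicit false

namespace Pool.Agent.Results.MP_07a0c6_lc.TreesBipartiteInterval

open Q224.UC Q224.PL Pool.Agent.NPC

theorem result :
    (∃ g : List Bool → List Bool, PolyTime g ∧ ∀ x : List ℕ × List (ℕ × ℕ),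
      (cG x).IsTree → g (bits x) = bits (OmegaUC (cG x))) ∧
    UCWComplete (fun G => G.IsBipartite) ∧
    UCWComplete (fun G => IsInterval G) :=
  ⟨Q224UC.tree_poly, Q224UC.complete_bip, Q224UC.complete_interval⟩

end Pool.Agent.Results.MP_07a0c6_lc.TreesBipartiteInterval
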